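import Mathlib
import Pool.Agent.Helper610.Bohr.Basic

set_option autoImplicit false

namespace Pool.Agent.Results.MP_dfd3b8_an.NotSharp

open Metric Set Filter Topology Pool.Agent.Helper610.Bohr

/-- The class `A` of normalized holomorphic functions on the unit disc. -/
def classA : Set (ℂ → ℂ) := {f | DifferentiableOn ℂ f (ball 0 1) ∧ f 0 = 0 ∧ deriv f 0 = 1}

/-- `f(z)/z`, with the value `1` at `0`. -/
noncomputable def quot (f : ℂ → ℂ) (z : ℂ) : ℂ := if z = 0 then 1 else f z / z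

/-- `z f'(z)/f(z)`, with the value `1` at `0`. -/
noncomputable def starQuot (f : ℂ → ℂ) (z : ℂ) : ℂ := if z = 0 then 1 else z * deriv f z / f z

/-- The expression `g_{α,β}`. -/
noncomputable def gExpr (α β : ℝ) (f : ℂ → ℂ) (z : ℂ) : ℂ :=
  α * quot f z + β * starQuot f z + (1 - α - β) * (1 + z * deriv (deriv f) z / deriv f z)

/-- The class `M_{α,β}`: the denominators that occur in `g_{α,β}` do not vanish (so that it is
defined on the whole disc) and its real part is larger than `(α+β)/2`. -/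
def classM (α β : ℝ) : Set (ℂ → ℂ) :=
  {f | f ∈ classA ∧ (β ≠ 0 → ∀ z ∈ ball (0 : ℂ) 1, z ≠ 0 → f z ≠ 0) ∧
    (1 - α - β ≠ 0 → ∀ z ∈ ball (0 : ℂ) 1, deriv f z ≠ 0) ∧
    ∀ z ∈ ball (0 : ℂ) 1, (α + β) / 2 < (gExpr α β f z).re}

/-- The `k`-th Taylor coefficient at the origin. -/
noncomputable def tcoef (k : ℕ) (f : ℂ → ℂ) : ℂ := iteratedDeriv k f 0 / (k.factorial : ℂ)

/-- The Fekete-Szegő functional `a_3 - λ a_2²`. -/
noncomputable def Phi (f : ℂ → ℂ) (lam : ℂ) : ℂ := tcoef 3 f - lam * tcoef 2 f ^ 2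

/-- `μ(α,β) = (2-α-β)/(6-5α-4β)`. -/
noncomputable def mu (α β : ℝ) : ℝ := (2 - α - β) / (6 - 5 * α - 4 * β)

theorem coeff_deriv (v : ℂ → ℂ) (n : ℕ) : coeff (deriv v) n = (n + 1) * coeff v (n + 1) := by
  have h : iteratedDeriv n (deriv v) 0 = iteratedDeriv (n + 1) v 0 := by
    rw [iteratedDeriv_succ']
  rw [coeff, coeff, h, Nat.factorial_succ]
  have h1 : ((n.factorial : ℕ) : ℂ) ≠ 0 := by exact_mod_cast n.factorial_ne_zero
  have h2 : ((n : ℂ) + 1) ≠ 0 := by exact_mod_cast n.succ_ne_zero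
  push_cast
  field_simp

/-- coefficient sequence of `z v'` -/
theorem ps_zderiv {v : ℂ → ℂ} (hv : DifferentiableOn ℂ v (ball 0 1)) :
    PS (fun z => z * deriv v z) (fun n => n * coeff v n) := by
  have h1 : DifferentiableOn ℂ (deriv v) (ball 0 1) := hv.deriv isOpen_ball
  have h2 := (PS.of_diff h1).shift
  convert h2 using 1
  funext n
  cases n with
  | zero => simp [shiftSeq]
  | succ n => simp [shiftSeq, coeff_deriv]

theorem coeff_le_one {G : ℂ → ℂ} (hG : DifferentiableOn ℂ G (ball 0 1)) (hG0 : G 0 = 1)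
    (hre : ∀ z : ℂ, ‖z‖ < 1 → 1 / 2 < (G z).re) {k : ℕ} (hk : k ≠ 0) : ‖coeff G k‖ ≤ 1 := by
  have hps : PS (fun z => 2 * G z - 1) (fun n => 2 * coeff G n - if n = 0 then 1 else 0) :=
    ((PS.of_diff hG).const_mul 2).sub (PS.const 1)
  have h := herglotz_bound hps (by fun_prop) (fun z hz => by
      have := hre z hz
      simp
      linarith) (by simp [coeff, hG0]; norm_num) 1 (k + 1) (fun _ => 1) (fun _ => zero_le_one)
      (fun _ j => if j = k then 1 else 0) 2 (fun ζ hζ => by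
        rw [Finset.sum_range_one, one_mul, Finset.sum_eq_single k]
        · simp [hk, hζ]
        · intro j _ hj
          simp [hj]
        · intro h
          simp at h)
  rw [Finset.sum_range_one, one_mul, Finset.sum_eq_single k] at h
  · simp [hk] at h
    linarith
  · intro j _ hj
    simp [hj]
  · intro h
    simp at h

/-- partial sums of the moduli of the coefficients -/
noncomputable def TT (a : ℕ → ℂ) (n : ℕ) : ℝ := ∑ j ∈ Finset.range n, ‖a j‖

theorem conv_tail_le {c a : ℕ → ℂ} (hc : ∀ n, n ≠ 0 → ‖c n‖ ≤ 1) (m : ℕ) :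
    ‖conv c a (m + 1) - c 0 * a (m + 1)‖ ≤ TT a (m + 1) := by
  have h1 : conv c a (m + 1) - c 0 * a (m + 1) =
      ∑ p ∈ Finset.HasAntidiagonal.antidiagonal m, c (p.1 + 1) * a p.2 := by
    rw [conv, Finset.Nat.sum_antidiagonal_succ]
    ring
  rw [h1]
  calc _ ≤ ∑ p ∈ Finset.HasAntidiagonal.antidiagonal m, ‖c (p.1 + 1) * a p.2‖ := norm_sum_le _ _
    _ ≤ ∑ p ∈ Finset.HasAntidiagonal.antidiagonal m, ‖a p.2‖ := by
        refine Finset.sum_le_sum fun p _ => ?_
        rw [norm_mul]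
        have := hc (p.1 + 1) (Nat.succ_ne_zero _)
        nlinarith [norm_nonneg (a p.2)]
    _ = TT a (m + 1) := by
        rw [TT, ← Finset.Nat.sum_antidiagonal_swap]
        exact Finset.Nat.sum_antidiagonal_eq_sum_range_succ (fun i _ => ‖a i‖) m

theorem core {b : ℝ} (hb : 99 / 100 ≤ b) (hb1 : b < 1) {v G : ℂ → ℂ}
    (hv : DifferentiableOn ℂ v (ball 0 1)) (hv0 : v 0 = 1) (hvn : ∀ z ∈ ball (0 : ℂ) 1, v z ≠ 0)
    (hG : DifferentiableOn ℂ G (ball 0 1)) (hG0 : G 0 = 1)
    (hre : ∀ z : ℂ, ‖z‖ < 1 → 1 / 2 < (G z).re)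
    (heq : ∀ z : ℂ, ‖z‖ < 1 → b * (z * deriv v z) = (G z + b) * v z - (1 + b)) :
    ‖coeff v 2‖ ≤ 95 := by
  set a := coeff v with ha
  have hpv : PS v a := PS.of_diff hv
  have ha0 : a 0 = 1 := by simp [ha, coeff, hv0]
  set c : ℕ → ℂ := fun n => coeff G n + if n = 0 then (b : ℂ) else 0 with hc
  have hc0 : c 0 = 1 + b := by simp [hc, coeff, hG0]
  have hc1 : ∀ n, n ≠ 0 → ‖c n‖ ≤ 1 := by
    intro n hn
    simp only [hc, if_neg hn, add_zero]
    exact coeff_le_one hG hG0 hre hn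
  have hp1 : PS (fun z => (b : ℂ) * (z * deriv v z)) (fun n => (b : ℂ) * (n * a n)) :=
    (ps_zderiv hv).const_mul b
  have hp2 : PS (fun z => (G z + b) * v z - (1 + b))
      (fun n => conv c a n - if n = 0 then ((1 : ℂ) + b) else 0) :=
    (((PS.of_diff hG).add (PS.const (b : ℂ))).mul hpv).sub (PS.const (1 + b : ℂ))
  have hun := hp1.unique (hp2.congr (fun z hz => heq z hz))
  -- the recursion
  have hrec : ∀ m : ℕ, ‖((b * m - 1 : ℝ) : ℂ) * a (m + 1)‖ ≤ TT a (m + 1) := by
    intro m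
    have h1 := congrFun hun (m + 1)
    simp only [Nat.succ_ne_zero, if_false, sub_zero] at h1
    have h2 := conv_tail_le (a := a) hc1 m
    rw [← h1, hc0] at h2
    have h3 : ((b * m - 1 : ℝ) : ℂ) * a (m + 1) =
        (b : ℂ) * (((m + 1 : ℕ) : ℂ) * a (m + 1)) - (1 + b) * a (m + 1) := by
      push_cast
      ring
    rw [h3]
    exact h2
  have hTsucc : ∀ n, TT a (n + 1) = TT a n + ‖a n‖ := fun n => Finset.sum_range_succ _ _
  have hT1 : TT a 1 = 1 := by simp [TT, ha0]
  have ha1 : ‖a 1‖ ≤ 1 := by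
    have := hrec 0
    rw [hT1] at this
    simpa using this
  set V := ‖a 2‖ with hV
  have hV0 : 0 ≤ V := norm_nonneg _
  have hT3 : TT a 3 ≤ V + 2 := by
    rw [hTsucc 2, hTsucc 1, hT1]
    linarith
  have hstep : ∀ m : ℕ, ‖a (m + 3)‖ ≤ 50 / 49 * TT a (m + 3) := by
    intro m
    have h1 := hrec (m + 2)
    rw [norm_mul, Complex.norm_real] at h1
    have h2 : 49 / 50 ≤ b * ((m + 2 : ℕ) : ℝ) - 1 := by
      push_cast
      nlinarith [(Nat.cast_nonneg m : (0 : ℝ) ≤ m)]
    rw [Real.norm_of_nonneg (by linarith)] at h1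
    have h3 := norm_nonneg (a (m + 3))
    have h4 : 49 / 50 * ‖a (m + 3)‖ ≤ TT a (m + 3) :=
      (mul_le_mul_of_nonneg_right h2 h3).trans h1
    linarith
  have hTb : ∀ m : ℕ, TT a (m + 3) ≤ (V + 2) * (9 / 4) ^ m := by
    intro m
    induction m with
    | zero => simpa using hT3
    | succ m ih =>
      have h1 := hstep m
      have h2 := hTsucc (m + 3)
      have h3 : TT a (m + 1 + 3) = TT a (m + 3) + ‖a (m + 3)‖ := h2
      rw [h3, pow_succ]
      have h4 : 0 ≤ TT a (m + 3) := Finset.sum_nonneg fun _ _ => norm_nonneg _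
      nlinarith
  have hab : ∀ m : ℕ, ‖a (m + 3)‖ ≤ 50 / 49 * (V + 2) * (9 / 4) ^ m := by
    intro m
    have := hstep m
    have := hTb m
    linarith
  by_contra hcon
  push Not at hcon
  -- lower bound on the circle of radius 1/5
  have hlow : ∀ z : ℂ, ‖z‖ = 1 / 5 → 1 + 1 / 100 ≤ ‖v z‖ := by
    intro z hz
    have h1 := hpv z (by rw [hz]; norm_num)
    have h2 := (hasSum_nat_add_iff' 3).2 h1
    have h3 : Summable (fun m : ℕ => 50 / 49 * (V + 2) * (1 / 125) * (9 / 20 : ℝ) ^ m) :=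
      (summable_geometric_of_lt_one (by norm_num) (by norm_num)).mul_left _
    have h4 : ∀ m : ℕ, ‖a (m + 3) * z ^ (m + 3)‖ ≤
        50 / 49 * (V + 2) * (1 / 125) * (9 / 20 : ℝ) ^ m := by
      intro m
      rw [norm_mul, norm_pow, hz]
      calc ‖a (m + 3)‖ * (1 / 5) ^ (m + 3) ≤
          (50 / 49 * (V + 2) * (9 / 4) ^ m) * (1 / 5) ^ (m + 3) := by gcongr; exact hab m
        _ = 50 / 49 * (V + 2) * (1 / 125) * ((9 / 4) ^ m * (1 / 5) ^ m) := by ring
        _ = _ := by rw [← mul_pow]; norm_num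
    have h5 := tsum_of_norm_bounded h3.hasSum h4
    rw [h2.tsum_eq, tsum_mul_left, tsum_geometric_of_lt_one (by norm_num) (by norm_num)] at h5
    simp only [Finset.sum_range_succ, Finset.sum_range_zero, pow_zero, mul_one, pow_one,
      zero_add] at h5
    have h6 : ‖a 2 * z ^ 2‖ = V / 25 := by
      rw [norm_mul, norm_pow, hz]
      ring
    have h7 : ‖a 1 * z‖ ≤ 1 / 5 := by
      rw [norm_mul, hz]
      linarith
    have h8 : a 2 * z ^ 2 = v z - (v z - (a 0 + a 1 * z + a 2 * z ^ 2)) - a 0 - a 1 * z := by ring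
    have h9 : ‖a 2 * z ^ 2‖ ≤
        ‖v z‖ + ‖v z - (a 0 + a 1 * z + a 2 * z ^ 2)‖ + ‖a 0‖ + ‖a 1 * z‖ := by
      rw [h8]
      refine (norm_sub_le _ _).trans (add_le_add ?_ ?_)
      · refine (norm_sub_le _ _).trans (add_le_add ?_ le_rfl)
        refine (norm_sub_le _ _).trans (le_of_eq ?_)
        congr 2
        ring
      · exact le_rfl
    rw [ha0, norm_one] at h9
    rw [ha0] at h5
    linarith
  -- maximum principle for 1/v
  have hinv : DifferentiableOn ℂ (fun z => (v z)⁻¹) (ball 0 1) := hv.inv hvn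
  have hmax := Complex.norm_le_of_forall_mem_frontier_norm_le (U := ball (0 : ℂ) (1 / 5))
    isBounded_ball (f := fun z => (v z)⁻¹) (C := (1 + 1 / 100)⁻¹) (by
      apply DifferentiableOn.diffContOnCl
      rw [closure_ball _ (by norm_num)]
      exact hinv.mono (closedBall_subset_ball (by norm_num))) (by
      intro z hz
      rw [frontier_ball _ (by norm_num), mem_sphere_zero_iff_norm] at hz
      rw [norm_inv]
      exact inv_anti₀ (by norm_num) (hlow z hz)) (z := 0)
      (subset_closure (mem_ball_self (by norm_num)))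
  simp only [hv0, inv_one, norm_one] at hmax
  norm_num at hmax

/-- For `-1 < β ≤ -99/100` and `α = 1 - β` every member of the class satisfies
`|a_3 - a_2²| ≤ 95`. -/
theorem bound {β : ℝ} (h0 : -1 < β) (h1 : β ≤ -(99 / 100)) {f : ℂ → ℂ}
    (hf : f ∈ classM (1 - β) β) : ‖Phi f 1‖ ≤ 95 := by
  obtain ⟨⟨hd, hf0, hf1⟩, hne, -, hre⟩ := hf
  have hne' := hne (by linarith)
  have hball : ball (0 : ℂ) 1 ∈ 𝓝 (0 : ℂ) := isOpen_ball.mem_nhds (mem_ball_self one_pos)
  set q : ℂ → ℂ := dslope f 0 with hq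
  have hq0 : q 0 = 1 := by rw [hq, dslope_same, hf1]
  have hqz : ∀ z, z ≠ 0 → q z = f z / z := by
    intro z hz
    rw [hq, dslope_of_ne _ hz, slope_def_field, hf0, sub_zero, sub_zero]
  have hqd : DifferentiableOn ℂ q (ball 0 1) := (Complex.differentiableOn_dslope hball).2 hd
  have hfq : ∀ z, f z = z * q z := by
    intro z
    by_cases hz : z = 0
    · simp [hz, hf0]
    · rw [hqz z hz]; field_simp
  have hqn : ∀ z ∈ ball (0 : ℂ) 1, q z ≠ 0 := by
    intro z hz
    by_cases h : z = 0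
    · simp [h, hq0]
    · rw [hqz z h]; exact div_ne_zero (hne' z hz h) h
  have hfd : ∀ z ∈ ball (0 : ℂ) 1, deriv f z = q z + z * deriv q z := by
    intro z hz
    have e1 : HasDerivAt q (deriv q z) z :=
      (hqd.differentiableAt (isOpen_ball.mem_nhds hz)).hasDerivAt
    have e2 := (hasDerivAt_id z).fun_mul e1
    have e3 : f = fun z => id z * q z := by funext z; exact hfq z
    rw [e3, e2.deriv]
    simp
  set v : ℂ → ℂ := fun z => (q z)⁻¹ with hv
  have hvd : DifferentiableOn ℂ v (ball 0 1) := hqd.inv hqn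
  set G : ℂ → ℂ := fun z => ((1 - β : ℝ) : ℂ) * q z + β * (deriv f z * v z) with hG
  have hGd : DifferentiableOn ℂ G (ball 0 1) := by
    have h2 : DifferentiableOn ℂ (deriv f) (ball 0 1) := hd.deriv isOpen_ball
    exact (hqd.const_mul _).add ((h2.mul hvd).const_mul _)
  have hG0 : G 0 = 1 := by
    simp only [hG, hv, hq0, hf1]
    push_cast
    ring
  have hGe : ∀ z ∈ ball (0 : ℂ) 1, gExpr (1 - β) β f z = G z := by
    intro z hz
    have e0 : (1 : ℂ) - ((1 - β : ℝ) : ℂ) - β = 0 := by push_cast; ring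
    rw [gExpr, e0, zero_mul, add_zero]
    simp only [hG]
    by_cases h : z = 0
    · simp [quot, starQuot, h, hq0, hf1, hv]
    · have hqz0 := hqn z hz
      simp only [quot, starQuot, if_neg h, hv]
      rw [hqz z h]
      have hfz := hne' z hz h
      field_simp
  have hre' : ∀ z : ℂ, ‖z‖ < 1 → 1 / 2 < (G z).re := by
    intro z hz
    have hz' : z ∈ ball (0 : ℂ) 1 := by simpa using hz
    have := hre z hz'
    rw [hGe z hz'] at this
    convert this using 1
    ring
  have hcore := core (b := -β) (by linarith) (by linarith) hvd (by simp [hv, hq0])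
    (fun z hz => inv_ne_zero (hqn z hz)) hGd hG0 hre' (by
      intro z hz
      have hz' : z ∈ ball (0 : ℂ) 1 := by simpa using hz
      have hqz0 := hqn z hz'
      have e1 : HasDerivAt q (deriv q z) z :=
        (hqd.differentiableAt (isOpen_ball.mem_nhds hz')).hasDerivAt
      have e2 : deriv v z = -deriv q z / q z ^ 2 := (e1.fun_inv hqz0).deriv
      rw [e2]
      simp only [hG, hv]
      rw [hfd z hz']
      push_cast
      field_simp
      ring)
  -- relation between the coefficients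
  have hpq : PS q (coeff q) := PS.of_diff hqd
  have hpv : PS v (coeff v) := PS.of_diff hvd
  have hmul := hpq.mul hpv
  have hone : PS (fun z => q z * v z) (fun n => if n = 0 then 1 else 0) :=
    (PS.const 1).congr (fun z hz => mul_inv_cancel₀ (hqn z (by simpa using hz)))
  have huq := hmul.unique hone
  have hpf : PS f (shiftSeq (coeff q)) := hpq.shift.congr (fun z _ => hfq z)
  have hfc := (PS.of_diff hd).unique hpf
  have c0 : coeff q 0 = 1 := by simp [coeff, hq0]
  have d0 : coeff v 0 = 1 := by simp [coeff, hv, hq0]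
  have c1 := congrFun huq 1
  have c2 := congrFun huq 2
  simp only [conv, Finset.Nat.antidiagonal_succ, Finset.Nat.antidiagonal_zero] at c1 c2
  simp [c0, d0] at c1 c2
  have f2 : tcoef 2 f = coeff q 1 := congrFun hfc 2
  have f3 : tcoef 3 f = coeff q 2 := congrFun hfc 3
  have : Phi f 1 = -coeff v 2 := by
    rw [Phi, f2, f3]
    linear_combination c2 - coeff q 1 * c1
  rw [this, norm_neg]
  exact hcore

theorem id_mem {β : ℝ} : (fun z : ℂ => z) ∈ classM (1 - β) β := by
  have hd : deriv (fun z : ℂ => z) = fun _ => 1 := by funext z; simp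
  refine ⟨⟨differentiableOn_id, rfl, by simp⟩, fun _ z _ h => h, fun _ z _ => by simp, ?_⟩
  intro z hz
  have e1 : quot (fun z : ℂ => z) z = 1 := by
    by_cases h : z = 0
    · simp [quot, h]
    · simp [quot, h]
  have e2 : starQuot (fun z : ℂ => z) z = 1 := by
    by_cases h : z = 0
    · simp [starQuot, h]
    · simp [starQuot, h]
  rw [gExpr, e1, e2, hd]
  simp
  norm_num

/-- **The Fekete-Szegő bound is not sharp near the corner of the parameter region.** For every
`β` with `-1 < β ≤ -99/100` and `α = 1 - β`, the pair `(α, β)` lies in the region `R`, the class is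
nonempty, `|a_3 - a_2²| ≤ 95` for all members, while `max (μ, |1 - 1|) = μ = 1/(1+β) ≥ 100`. So the
supremum is strictly smaller than the bound at `λ = 1`. -/
theorem result (β : ℝ) (h0 : -1 < β) (h1 : β ≤ -(99 / 100)) :
    (1 - β) + β < 2 ∧ 5 * (1 - β) + 4 * β < 6 ∧
    (classM (1 - β) β).Nonempty ∧
    (∀ f ∈ classM (1 - β) β, ‖Phi f 1‖ ≤ 95) ∧
    mu (1 - β) β = 1 / (1 + β) ∧ 100 ≤ mu (1 - β) β ∧
    sSup ((fun f => ‖Phi f 1‖) '' classM (1 - β) β) < max (mu (1 - β) β) ‖(1 : ℂ) - 1‖ := by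
  have hb : ∀ f ∈ classM (1 - β) β, ‖Phi f 1‖ ≤ 95 := fun f hf => bound h0 h1 hf
  have hmu : mu (1 - β) β = 1 / (1 + β) := by
    rw [mu]
    congr 1 <;> ring
  have hmu2 : 100 ≤ mu (1 - β) β := by
    rw [hmu, le_div_iff₀ (by linarith)]
    linarith
  refine ⟨by linarith, by linarith, ⟨_, id_mem⟩, hb, hmu, hmu2, ?_⟩
  apply lt_max_of_lt_left
  have h2 : sSup ((fun f => ‖Phi f 1‖) '' classM (1 - β) β) ≤ 95 := by
    apply csSup_le (Set.Nonempty.image _ ⟨_, id_mem⟩)
    rintro _ ⟨f, hf, rfl⟩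
    exact hb f hf
  linarith

end Pool.Agent.Results.MP_dfd3b8_an.NotSharp
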